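import Pool.Agent.Lib.lead.CXSat
import Pool.Agent.H.MP_3853ed_lc.A

namespace Pool.Agent.Results.MP_3853ed_lc.Hard

open Pool.Agent.Lib.CX Pool.Agent.H.MP_3853ed_lc

/-- `Y` arises from `X` by joining two different classes -/
def Join {α : Type} (X Y : Setoid α) : Prop :=
  ∃ u v, ¬ X u v ∧ ∀ x y, Y x y ↔ X x y ∨ X x u ∧ X v y ∨ X x v ∧ X u y

/-- least number of joins and splits turning `X` into `Y` -/
noncomputable def d {α : Type} (X Y : Setoid α) : ℕ := (SimpleGraph.fromRel Join).dist X Y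

/-- the partition of `Fin n` given by class labels -/
def part (n : ℕ) (l : List ℕ) : Setoid (Fin n) := Setoid.ker fun v => l.getD v 0

noncomputable def cost (n : ℕ) (L : List (List ℕ)) (Y : Setoid (Fin n)) : ℕ :=
  (L.map fun l => d (part n l) Y).sum

theorem df {n} (X Y : Setoid (Fin n)) : d X Y + 2 * c (X ⊔ Y) = c X + c Y := by
  have j : ∀ X Y : Setoid (Fin n), Join X Y ↔ ∃ u v, ¬ X u v ∧ Y = add X u v := fun X Y => by
    simp only [Join, Setoid.ext_iff, add_iff]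
  refine formula _ (fun X Y => ?_) X Y
  simp only [SimpleGraph.fromRel_adj, j, exists_or, and_iff_right_iff_imp]
  rintro (⟨u, v, a, b⟩ | ⟨u, v, a, b⟩) rfl <;> exact a (add_le.1 b.ge).2

def lab (φ : List (T3 ℕ)) (g : ℕ → ℕ) : List ℕ := (List.range (12 * φ.length)).map g
def tt (φ : List (T3 ℕ)) : ℕ := φ.length * (18 * φ.length + 4) + 1

def ls (φ : List (T3 ℕ)) : List (List ℕ) :=
  List.replicate (2 * tt φ) (lab φ gX) ++ List.replicate (2 * tt φ) (lab φ gY) ++
    List.replicate (tt φ) (lab φ id) ++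
    φ.flatMap fun C => [lab φ (gZ C.1 C.2.1), lab φ (gZ C.2.1 C.2.2), lab φ (gZ C.2.2 C.1)]

def red (φ : List (T3 ℕ)) : List Unit × List (List ℕ) := (List.replicate (12 * φ.length) (), ls φ)
def kk (φ : List (T3 ℕ)) : ℕ := 18 * φ.length * tt φ + φ.length * (18 * φ.length + 4)

theorem pt : PT red := by unfold red ls lab tt gX gY gZ; fun_prop

theorem key (φ : List (T3 ℕ)) (h : ∀ C ∈ φ, C.dist ∧ ∀ x ∈ C.vars, x < 3 * φ.length) (N : ℕ)
    (hN : N = 4 * (3 * φ.length)) : (SatR nae φ → ∃ Y, cost N (ls φ) Y ≤ kk φ) ∧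
      ∀ Y, cost N (ls φ) Y ≤ kk φ →
        ∃ σ, Y = K N (gS σ) ∧ ∀ C ∈ φ, nae (σ C.1) (σ C.2.1) (σ C.2.2) = true := by
  subst hN
  have p : ∀ g, part (4 * (3 * φ.length)) (lab φ g) = K _ g := fun g => by
    unfold part K
    congr 1
    funext v
    have : v.1 < 12 * φ.length := by omega
    simp [lab, this]
  let F (Y : Setoid (Fin (4 * (3 * φ.length)))) (C : T3 ℕ) : ℕ := d (K _ (gZ C.1 C.2.1)) Y +
    d (K _ (gZ C.2.1 C.2.2)) Y + d (K _ (gZ C.2.2 C.1)) Y
  have e : ∀ Y, cost _ (ls φ) Y = tt φ * (2 * d (K _ gX) Y + 2 * d (K _ gY) Y + d (K _ id) Y) +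
      (φ.map (F Y)).sum := fun Y => by
    have : ∀ ψ : List (T3 ℕ), ((ψ.flatMap fun C => [lab φ (gZ C.1 C.2.1), lab φ (gZ C.2.1 C.2.2),
        lab φ (gZ C.2.2 C.1)]).map fun l => d (part _ l) Y).sum = (ψ.map (F Y)).sum := fun ψ => by
      induction ψ with
      | nil => rfl
      | cons C ψ ih => simp [ih, p, F, add_assoc]
    simp only [cost, ls, List.map_append, List.sum_append, this, List.map_replicate, List.sum_replicate, p,
      smul_eq_mul]
    ring
  have a : ∀ Y : Setoid (Fin (4 * (3 * φ.length))), 2 * d (K _ gX) Y + 2 * d (K _ gY) Y + d (K _ id) Y +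
      4 * c (K _ gX ⊔ Y) + 4 * c (K _ gY ⊔ Y) = 36 * φ.length + 3 * c Y := fun Y => by
    have a1 := df (K _ gX) Y
    have a2 := df (K _ gY) Y
    have a3 := df (K _ id) Y
    have a4 : c (K _ gX) = _ := cS (3 * φ.length) fun _ => true
    have a5 : c (K _ gY) = _ := cS (3 * φ.length) fun _ => false
    rw [show K _ id ⊔ Y = Y from sup_eq_right.2 fun u v h => Fin.ext h ▸ Y.refl' _, cB] at a3
    omega
  have b : ∀ σ, ∀ C ∈ φ, F (K _ (gS σ)) C + (if nae (σ C.1) (σ C.2.1) (σ C.2.2) then 2 else 0) =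
      18 * φ.length + 6 := fun σ C hC => by
    obtain ⟨⟨h1, h2, h3⟩, h4⟩ := h C hC
    simp only [T3.vars, List.forall_mem_cons] at h4
    have := gad h4.1 h4.2.1 h1 σ
    have := gad h4.2.1 h4.2.2.1 h3 σ
    have := gad h4.2.2.1 h4.1 h2.symm σ
    have := df (K (4 * (3 * φ.length)) (gZ C.1 C.2.1)) (K _ (gS σ))
    have := df (K (4 * (3 * φ.length)) (gZ C.2.1 C.2.2)) (K _ (gS σ))
    have := df (K (4 * (3 * φ.length)) (gZ C.2.2 C.1)) (K _ (gS σ))
    have := cS (3 * φ.length) σ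
    simp only [F]
    generalize σ C.1 = x, σ C.2.1 = y, σ C.2.2 = z at *
    cases x <;> cases y <;> cases z <;> simp [nae] at * <;> omega
  let D (Y : Setoid (Fin (4 * (3 * φ.length)))) := 2 * d (K _ gX) Y + 2 * d (K _ gY) Y + d (K _ id) Y
  have g : ∀ σ, D (K _ (gS σ)) ≤ 18 * φ.length := fun σ => by
    simp only [D]
    have := a (K _ (gS σ))
    have := good (3 * φ.length) σ
    have := cS (3 * φ.length) σ
    omega
  refine ⟨fun ⟨σ, hσ⟩ => ⟨K _ (gS σ), ?_⟩, fun Y hY => ?_⟩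
  · rw [e, kk, mul_comm _ (tt φ)]
    refine add_le_add (Nat.mul_le_mul_left _ (g σ)) ?_
    have := List.sum_le_card_nsmul (φ.map (F (K _ (gS σ)))) (18 * φ.length + 4) (List.forall_mem_map.2
      fun C hC => by have := b σ C hC; rw [if_pos (hσ C hC)] at this; omega)
    simpa using this
  · rw [e, kk, mul_comm _ (tt φ)] at hY
    have := a Y
    obtain l | ⟨l, σ, rfl⟩ := bad _ Y
    · have := Nat.mul_le_mul_left (tt φ)
        (show 18 * φ.length + 1 ≤ 2 * d (K _ gX) Y + 2 * d (K _ gY) Y + d (K _ id) Y by omega)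
      rw [mul_add, mul_one] at this
      have : tt φ = φ.length * (18 * φ.length + 4) + 1 := rfl
      omega
    refine ⟨σ, rfl, fun C hC => by_contra fun k => ?_⟩
    have := Nat.mul_le_mul_left (tt φ) (show 18 * φ.length ≤ D (K _ (gS σ)) by simp only [D]; omega)
    simp only [D] at this
    have := List.sum_lt_sum (l := φ) (fun _ => 18 * φ.length + 4) (F (K _ (gS σ)))
      (fun C hC => by have := b σ C hC; grind) ⟨C, hC, by have := b σ C hC; grind⟩
    simp at this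
    omega

theorem result : NPHard (fun a : (List Unit × List (List ℕ)) × ℕ => ∃ Y, cost a.1.1.length a.1.2 Y ≤ a.2) ∧
    ∀ f : List Unit × List (List ℕ) → List ℕ, PT f →
      (∀ a Y, cost a.1.length a.2 (part _ (f a)) ≤ cost a.1.length a.2 Y) →
      ∀ A : List Bool → Prop, InNP A → InP A := by
  have l : ∀ φ, (red φ).1.length = 4 * (3 * φ.length) := fun φ => by simp [red]; omega
  have := pt
  refine ⟨NPHard.of_nae (fun φ => (red φ, kk φ)) (by unfold kk tt; fun_prop) fun φ h =>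
    ⟨(key φ h _ (l φ)).1, fun ⟨Y, hY⟩ => let ⟨σ, _, k⟩ := (key φ h _ (l φ)).2 Y hY; ⟨σ, k⟩⟩,
    fun f hf hm A hA => ?_⟩
  let s (l : List ℕ) (j : ℕ) : Bool := l.getD (4 * j) 0 == l.getD (4 * j + 1) 0
  have H : NPHard fun φ : List (T3 ℕ) => ∀ C ∈ φ,
      nae (s (f (red φ)) C.1) (s (f (red φ)) C.2.1) (s (f (red φ)) C.2.2) = true :=
    NPHard.of_nae id PT.id fun φ h => ⟨fun k => ?_, fun k => ⟨_, k⟩⟩
  · exact (InP.of_decide (i := fun _ => inferInstance) (by unfold nae s; fun_prop)).red (H A hA)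
  obtain ⟨Y, hY⟩ := (key φ h _ (l φ)).1 k
  obtain ⟨σ, e, hσ⟩ := (key φ h _ (l φ)).2 _ ((hm (red φ) Y).trans hY)
  have t : ∀ j < 3 * φ.length, s (f (red φ)) j = σ j := fun j hj => by
    have := Setoid.ext_iff.1 e ⟨4 * j, by rw [l]; omega⟩ ⟨4 * j + 1, by rw [l]; omega⟩
    have q : 4 * j / 4 = j ∧ (4 * j + 1) / 4 = j := by omega
    simp only [K_iff, gS, gX, gY, q] at this
    rw [Bool.eq_iff_iff, beq_iff_eq]
    exact this.trans (by grind)
  intro C hC
  have := (h C hC).2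
  simp only [T3.vars, List.forall_mem_cons] at this
  rw [id, t _ this.1, t _ this.2.1, t _ this.2.2.1, hσ C hC]

end Pool.Agent.Results.MP_3853ed_lc.Hard
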